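import Pool.Agent.L0h19.QE.Stm

set_option autoImplicit false

/-! Module BIQ of project QE (helper19): the square mean of the representation numbers. -/

namespace Pool.Agent.L0h48.QE

open Finset Pool.Agent.L0h19.QE

theorem t_BIQ : S_BIQ := by
  intro hR N u P E h1 h2
  have e1 := hR N u u
  have e2 : G2 a8 N 0 ![u 0, u 1, u 2, u 3, 1, 1, 1, 1] =
      ∑ n ∈ range (4 * N ^ 2 + 1), rp u N n * rp (fun _ _ => 1) N n := hR N u (fun _ _ => 1)
  have e3 : G2 a8 N 0 (fun _ _ => 1) =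
      ∑ n ∈ range (4 * N ^ 2 + 1), rp (fun _ _ => 1) N n * rp (fun _ _ => 1) N n := by
    rw [← hR N (fun _ _ => 1) (fun _ _ => 1)]
    congr 1
    funext i
    fin_cases i <;> rfl
  rw [e1] at h1
  rw [e2] at h2
  rw [e3] at h1 h2
  have e4 : ∑ n ∈ range (4 * N ^ 2 + 1), (rp u N n - P * rp (fun _ _ => 1) N n) ^ 2 =
      (∑ n ∈ range (4 * N ^ 2 + 1), rp u N n * rp u N n -
        P ^ 2 * ∑ n ∈ range (4 * N ^ 2 + 1), rp (fun _ _ => 1) N n * rp (fun _ _ => 1) N n) -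
      2 * P * (∑ n ∈ range (4 * N ^ 2 + 1), rp u N n * rp (fun _ _ => 1) N n -
        P * ∑ n ∈ range (4 * N ^ 2 + 1), rp (fun _ _ => 1) N n * rp (fun _ _ => 1) N n) := by
    simp only [mul_sum, ← sum_sub_distrib]
    refine sum_congr rfl fun n _ => ?_
    ring
  rw [e4]
  have h3 := (abs_le.1 h1).2
  have h4 : -(2 * P * (∑ n ∈ range (4 * N ^ 2 + 1), rp u N n * rp (fun _ _ => 1) N n -
        P * ∑ n ∈ range (4 * N ^ 2 + 1), rp (fun _ _ => 1) N n * rp (fun _ _ => 1) N n)) ≤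
      2 * |P| * E := by
    refine le_trans (neg_le_abs _) ?_
    rw [abs_mul, abs_mul, abs_two]
    exact mul_le_mul_of_nonneg_left h2 (by positivity)
  linarith

end Pool.Agent.L0h48.QE
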