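import Pool.Agent.L0h19.QE.Stm

set_option autoImplicit false

/-! Module LOB of project QE (helper19): a lower bound for the number of the solutions. -/

namespace Pool.Agent.L0h48.QE

open Finset Pool.Agent.L0h19.QE
open Pool.Agent.L0h87.LE (odds)

theorem odds_ge (N : ℕ) : N ≤ 2 * (odds N).card := by
  have h1 : (range ((N + 1) / 2)).image (fun i => 2 * i + 1) ⊆ odds N := by
    intro n hn
    rw [mem_image] at hn
    obtain ⟨i, hi, rfl⟩ := hn
    rw [mem_range] at hi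
    unfold odds
    rw [mem_filter, mem_Icc]
    omega
  have h2 := card_le_card h1
  rw [card_image_of_injective _ (fun a b h => by simpa using h), card_range] at h2
  omega

theorem sum_rp (N : ℕ) :
    ∑ n ∈ range (4 * N ^ 2 + 1), rp (fun _ _ => 1) N n = ((odds N).card : ℝ) ^ 4 := by
  unfold rp
  simp only [prod_const_one, sum_const, nsmul_eq_mul, mul_one]
  rw [← Nat.cast_sum, ← card_eq_sum_card_fiberwise
    (f := fun m : Fin 4 → ℕ => ∑ i, m i ^ 2) (s := Fintype.piFinset fun _ : Fin 4 => odds N)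
    (t := range (4 * N ^ 2 + 1))]
  · rw [Fintype.card_piFinset_const]
    push_cast
    rfl
  · intro m hm
    rw [mem_coe, Fintype.mem_piFinset] at hm
    rw [mem_coe, mem_range]
    have h1 : ∀ i, m i ^ 2 ≤ N ^ 2 := by
      intro i
      have h2 := hm i
      unfold odds at h2
      rw [mem_filter, mem_Icc] at h2
      exact Nat.pow_le_pow_left h2.1.2 2
    have h3 : ∑ i, m i ^ 2 ≤ ∑ _i : Fin 4, N ^ 2 := sum_le_sum fun i _ => h1 i
    rw [sum_const, card_univ, Fintype.card_fin, smul_eq_mul] at h3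
    exact Nat.lt_succ_of_le h3

theorem t_LOB : S_LOB := by
  intro hR N hN
  have e3 : G2 a8 N 0 (fun _ _ => 1) =
      ∑ n ∈ range (4 * N ^ 2 + 1), rp (fun _ _ => 1) N n ^ 2 := by
    have h1 := hR N (fun _ _ => 1) (fun _ _ => 1)
    simp only [← sq] at h1
    rw [← h1]
    congr 1
    funext i
    fin_cases i <;> rfl
  have hcs := sq_sum_le_card_mul_sum_sq (s := range (4 * N ^ 2 + 1))
    (f := fun n => rp (fun _ _ => 1) N n)
  rw [sum_rp, card_range, ← e3] at hcs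
  have hN' : (1 : ℝ) ≤ N := by exact_mod_cast hN
  have h1 : (N : ℝ) / 2 ≤ ((odds N).card : ℝ) := by
    have h2 : (N : ℝ) ≤ 2 * ((odds N).card : ℝ) := by exact_mod_cast odds_ge N
    linarith
  have h2 : ((N : ℝ) / 2) ^ 8 ≤ (((odds N).card : ℝ) ^ 4) ^ 2 := by
    rw [← pow_mul]
    exact pow_le_pow_left₀ (by positivity) h1 _
  have hG : 0 ≤ G2 a8 N 0 (fun _ _ => 1) := by
    rw [e3]
    exact sum_nonneg fun n _ => sq_nonneg _
  have h3 : ((4 * N ^ 2 + 1 : ℕ) : ℝ) ≤ 5 * (N : ℝ) ^ 2 := by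
    push_cast
    nlinarith
  have h4 : ((N : ℝ) / 2) ^ 8 ≤ 5 * (N : ℝ) ^ 2 * G2 a8 N 0 (fun _ _ => 1) :=
    le_trans (le_trans h2 hcs) (mul_le_mul_of_nonneg_right h3 hG)
  have h5 : (0 : ℝ) < 5 * (N : ℝ) ^ 2 := by positivity
  have h6 : 5 * (N : ℝ) ^ 2 * ((N : ℝ) ^ 6 / 1280) = ((N : ℝ) / 2) ^ 8 := by ring
  rw [← h6] at h4
  exact le_of_mul_le_mul_left h4 h5

end Pool.Agent.L0h48.QE
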